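import Pool.Agent.Y600.Fam.PCMain

/-!
# Algebraic proofs of the non-isomorphism of groups need degree of order `log n`

There is a constant `C` such that for every odd prime `p`, all `d ≥ 1` and all `r ≥ C d` there are
at least `p ^ (r ^ 3 / (C d))` groups of order `n = p ^ r`, of exponent `p` and class at most two,
whose Latin square graphs are pairwise not isomorphic, but for any two of them the
isomorphism axioms have no refutation of degree `d` in the polynomial calculus over a field
of characteristic different from `p` and none in the Positivstellensatz calculus over the reals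
(in particular no sum-of-squares refutation). Degree `O(log n)` suffices for groups (a group of
order `n` has `log n` generators), so that this is optimal up to the constant.

The earlier results of this kind (Atserias, Ochremiak, Berkholz, Grohe, Dawar, Wang) concern
graphs of the type of Cai, Fürer and Immerman, for which isomorphism can be decided in polynomial
time by solving equations over a finite field. The groups are those of `Pool/Agent/Y600/Fam`.
-/

set_option autoImplicit false

namespace Pool.Agent.Results.MP_f1a348_lc.AlgebraicProofFamilies

open Pool.Agent.Y600.GI Pool.Agent.TH658.Sos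

theorem result : ∃ C : ℕ, ∀ p : ℕ, p.Prime → p ≠ 2 → ∀ d r : ℕ, 1 ≤ d → C * d ≤ r →
    ∃ (Q I : Type) (_ : Fintype Q) (_ : Fintype I) (gr : I → Group Q),
      Fintype.card Q = p ^ r ∧
      p ^ (r ^ 3 / (C * d)) ≤ Fintype.card I ∧
      (∀ i, ExpTwo p (gr i)) ∧
      (∀ i j, Nonempty (groupGraph (gr i) ≃g groupGraph (gr j)) → i = j) ∧
      ∀ i j, (∀ (K : Type) [Field K], (p : K) ≠ 0 →
          ¬ PCRefutes K (groupGraph (gr i)) (groupGraph (gr j)) d) ∧
        ¬ PosRefutes (groupGraph (gr i)) (groupGraph (gr j)) d :=
  ⟨1200000, fun p hp hp2 d r hd hr => Pool.Agent.Y600.Fam.mainPC p hp hp2 d r hd hr⟩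

end Pool.Agent.Results.MP_f1a348_lc.AlgebraicProofFamilies
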