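import Pool.Agent.Y600.Circ.UpperMain

/-!
# Symmetric circuits for group isomorphism have size `n ^ Θ(log n)`

Group isomorphism, for groups of order `n` given by multiplication tables, is the special case of
graph isomorphism that is decided in time `n ^ O(log n)` by trying all images of `log n`
generators (Tarjan, Miller 1978); no better bound than `n ^ O(log n)` is known, so that group
isomorphism is a barrier to placing graph isomorphism in P.

A circuit reads the bits of two multiplication tables on the same set `Q`, and its gates compute
arbitrary functions, with values in any set, of the multiset of the labelled values on their wires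
(such as the functions that depend on the number of true values). It is symmetric if every
permutation of `Q`, applied to the first table, extends to an automorphism of the circuit; all
circuits that are obtained by translating formulas of logics or choiceless algorithms have this
property.

Lower bound: if `n = p ^ r`, `p` an odd prime, and `K k ≤ r`, then symmetric circuits that decide
isomorphism of groups of order `n` have at least `n ^ k` gates; so the size is at least
`n ^ (log_p n / K)` up to rounding. More generally, in an arbitrary circuit of this kind the wirings
of the gates (the functions that enter the gates) have at least `n ^ k` different transforms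
under the permutations of `Q`. There is even a family of `p ^ (r ^ 3 / (K k))` nonisomorphic groups of
order `n` (of exponent `p` and class two) such that every circuit with fewer transforms gives, for
random copies of two members of the family (and any second table), outputs with the same
distribution.

Upper bound: there is a symmetric circuit with at most `n ^ (2 log n + 10)` gates, each of which
computes a function of the number of true values that enter it.

Proof of the lower bound: subgroups of index less than `n ^ k` of the symmetric group contain all
even permutations that fix `O(k)` points (shown with blocks of size about the square root of `n`);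
so the function at each gate depends on the labels of few points only, up to even permutations of
the others. The groups are those of `Pool/Agent/Y600/GI` and `Pool/Agent/Y600/Fam` with
commutator map `f(x, y) + c(y) - d(x)` on `A × C`, where `C` is a generic space of tuples of
functionals on `A`; local solutions `M` of `M x y - M y x = f x y - f' x y` give partial
isomorphisms which can be extended point by point, and averages over the even permutations that
fix few points are transported from one group to the other.
-/

set_option autoImplicit false

namespace Pool.Agent.Results.MP_f1a348_lc.GroupCircuits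

open Pool.Agent.Y600.Circ

/-- The group has exponent dividing `p` and its commutators are central. -/
def ExpTwo (p : ℕ) {Q : Type} (G : Group Q) : Prop :=
  (∀ a : Q, a ^ p = 1) ∧ ∀ a b c : Q, a * b * a⁻¹ * b⁻¹ * c = c * (a * b * a⁻¹ * b⁻¹)

/-- **The size of symmetric circuits for group isomorphism.** -/
theorem result : ∃ K : ℕ,
    (∀ p : ℕ, p.Prime → p ≠ 2 → ∀ k r : ℕ, 1 ≤ k → K * k ≤ r →
      ∀ (Q : Type) [Fintype Q], Fintype.card Q = p ^ r →
        (∀ (D L : Type) (C : Circuit ((Q × Q × Q) ⊕ (Q × Q × Q)) D L) (acc : Set D),
          Decides C acc → Fintype.card Q ^ k ≤ numWirings pairBits C (firstRelabelings Q)) ∧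
        (∀ (D L : Type) (C : Circuit ((Q × Q × Q) ⊕ (Q × Q × Q)) D L) (acc : Set D),
          Symmetric C → Decides C acc → Fintype.card Q ^ k ≤ C.size) ∧
        ∃ (I : Type) (_ : Fintype I) (gr : I → Group Q),
          p ^ (r ^ 3 / (K * k)) ≤ Fintype.card I ∧
          (∀ i, ExpTwo p (gr i)) ∧
          (∀ (i j : I) (σ : Equiv.Perm Q), relabel σ (tab (gr i)) = tab (gr j) → i = j) ∧
          ∀ (D L : Type) (C : Circuit ((Q × Q × Q) ⊕ (Q × Q × Q)) D L),
            numWirings pairBits C (firstRelabelings Q) < Fintype.card Q ^ k →
            ∀ (i j : I) (t : Table Q) (d : D),
              Nat.card {σ : Equiv.Perm Q //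
                C.output (pairBits (relabel σ (tab (gr i)), t)) = d} =
              Nat.card {σ : Equiv.Perm Q //
                C.output (pairBits (relabel σ (tab (gr j)), t)) = d}) ∧
    ∀ (Q : Type) [Fintype Q], 2 ≤ Fintype.card Q →
      ∃ C : Circuit ((Q × Q × Q) ⊕ (Q × Q × Q)) Bool Unit,
        Symmetric C ∧ Decides C {true} ∧
        C.size ≤ Fintype.card Q ^ (2 * Nat.log 2 (Fintype.card Q) + 10) := by
  classical
  refine ⟨1400000, fun p hp hp2 k r hk hr Q _ hQ => ⟨?_, ?_, ?_⟩, fun Q _ h2 =>
    ⟨_, symmetric_circ, decides_circ, size_le h2⟩⟩
  · intro D L C acc hC
    rw [hQ]
    exact lower p hp hp2 k r hk hr Q hQ D L C acc hC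
  · intro D L C acc hS hC
    rw [hQ]
    exact (lower p hp hp2 k r hk hr Q hQ D L C acc hC).trans (numWirings_le_size C hS)
  · obtain ⟨I, hI, gr, h1, h3, h4, h5⟩ := main p hp hp2 k r hk hr Q hQ
    refine ⟨I, hI, gr, h1, h3, h4, fun D L C hnum i j t d => ?_⟩
    rw [hQ] at hnum
    have h6 := h5 D L C hnum i j t ℕ inferInstance (fun d' => if d' = d then 1 else 0)
    rw [finsum_eq_sum_of_fintype, finsum_eq_sum_of_fintype, Finset.sum_boole, Finset.sum_boole] at h6
    rw [Nat.card_eq_fintype_card, Nat.card_eq_fintype_card, Fintype.card_subtype,
      Fintype.card_subtype]
    exact h6

end Pool.Agent.Results.MP_f1a348_lc.GroupCircuits
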