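import Pool.Agent.Y600.GI.Main

/-!
# Individualization-refinement needs `n ^ Ω(log n)` steps on groups

Group isomorphism (for groups given by multiplication tables) reduces to graph isomorphism by
passing to the Latin square graph of the table, and it is decided in time `n ^ O(log n)` by
individualizing generators (Tarjan, Miller 1978); no algorithm with a better exponent than a
constant multiple of `log n` is known. Here we show that no algorithm of the
individualization-refinement type is better: there is a constant `C` such that for every odd prime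
`p` and every `k ≥ 1` there is a number `r`, `k ≤ r ≤ C k`, and a family of at least
`p ^ (r ^ 2 / C)` groups of order `n = p ^ r`, of exponent `p` and class two, pairwise not
isomorphic, such that for any two members `X`, `Y` of the family (also for `X = Y`) every search
which refines with at most the `k`-dimensional Weisfeiler-Leman method, selects cells and prunes
with any invariants of this method, and prunes with all automorphisms of `Y`, visits at least
`p ^ (r ^ 2 / C) = n ^ (log_p n / C)` nodes.

Proof idea. The groups live on `A × B × Γ`, with `B` a random space of `g`-tuples of functionals on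
`A = F_p ^ a`, `Γ = F_p ^ g`, and commutator map
`f(x, y) + c(y) - d(x)` for `(x, c), (y, d) ∈ A × B`, where `f : A × A → Γ` is alternating. A
linear map `M : A → B` moves the group of `f` to the group of `f'` if
`(M x)(y) - (M y)(x) = f(x, y) - f'(x, y)`. The annihilator of `B` expands, which makes this
system of equations consistent on all subspaces of `A` of dimension at most a constant fraction of
`a`, with `p ^ Ω(a ^ 2)` local solutions which all look alike; on the other hand the space `B` is so
generic that the homogeneous system has only the trivial global solution, `B Γ` and `Γ` are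
characteristic, and there are few isomorphisms. For that the constants have to be such that the
number of local solutions on a subspace on which the refinement does not see anything exceeds the
number of automorphisms.
-/

set_option autoImplicit false

namespace Pool.Agent.Results.MP_f1a348_lc.IRGroups

open Pool.Agent.Y600.GI

theorem result :
    (∀ (V : Type) [Fintype V] (j : ℕ), 1 ≤ j →
      ∃ (Δ : Type) (S : Scheme V Δ), S.IsSound ∧ S.Bounded j) ∧
    (∀ (V Δ : Type) [Fintype V] (S : Scheme V Δ), S.IsSound →
      ∀ G : SimpleGraph V, ∃ v, S.IsLeaf G v) ∧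
    ∃ C : ℕ, ∀ p : ℕ, p.Prime → p ≠ 2 → ∀ k : ℕ, 1 ≤ k →
      ∃ (r : ℕ) (Q I : Type) (_ : Fintype Q) (_ : Fintype I) (gr : I → Group Q),
        k ≤ r ∧ r ≤ C * k ∧ Fintype.card Q = p ^ r ∧
        p ^ (r ^ 2) ≤ Fintype.card I ^ C ∧
        (∀ i, ExpTwo p (gr i)) ∧
        (∀ i i', Nonempty (groupGraph (gr i) ≃g groupGraph (gr i')) → i = i') ∧
        ∀ (Δ : Type) (S : Scheme (Q × Q) Δ) (j : ℕ), 1 ≤ j → j ≤ k → S.Bounded j →
          ∀ (i i' : I) (v : List (Q × Q)) (E : Finset (List (Q × Q))),
            S.IsLeaf (groupGraph (gr i)) v →
              S.Explores (groupGraph (gr i)) v (groupGraph (gr i')) E →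
              p ^ (r ^ 2) ≤ E.card ^ C := by
  refine ⟨fun V _ j hj => Scheme.exists_scheme V hj,
    fun V Δ _ S hS G => Scheme.exists_isLeaf hS G, ?_⟩
  obtain ⟨C, hC⟩ : ∃ C : ℕ, C = 400000000 := ⟨_, rfl⟩
  refine ⟨C, fun p hp hp2 k hk => ?_⟩
  obtain ⟨Q, I, iQ, iI, gr, h1, h2, h3, h4, h5⟩ := main p hp hp2 k hk
  have hpos : 0 < p := hp.pos
  have hr2 : (320800000 * k + 1608) ^ 2 ≤ 220000000000 * (k * k) * C := by
    have e1 : 320800000 * k + 1608 ≤ 320801608 * k := by omega
    calc (320800000 * k + 1608) ^ 2 ≤ (320801608 * k) ^ 2 := Nat.pow_le_pow_left e1 2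
      _ = 102913671695385664 * (k * k) := by ring
      _ ≤ 220000000000 * (k * k) * C := by
          rw [hC]
          have e2 : 220000000000 * (k * k) * 400000000 = 88000000000000000000 * (k * k) := by
            ring
          rw [e2]
          exact Nat.mul_le_mul_right _ (by norm_num)
  have key : ∀ x : ℕ, p ^ (220000000000 * (k * k)) ≤ x →
      p ^ ((320800000 * k + 1608) ^ 2) ≤ x ^ C := by
    intro x hx
    calc p ^ ((320800000 * k + 1608) ^ 2) ≤ p ^ (220000000000 * (k * k) * C) :=
          Nat.pow_le_pow_right hpos hr2
      _ = (p ^ (220000000000 * (k * k))) ^ C := pow_mul _ _ _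
      _ ≤ x ^ C := Nat.pow_le_pow_left hx _
  refine ⟨320800000 * k + 1608, Q, I, iQ, iI, gr, by omega, by rw [hC]; omega, h1, ?_, h3, h4, ?_⟩
  · refine key _ (le_trans (Nat.pow_le_pow_right hpos ?_) h2)
    exact Nat.mul_le_mul_right _ (by norm_num)
  · intro Δ S j hj hjk hS i i' v E hv hE
    exact key _ (h5 Δ S j hj hjk hS i i' v E hv hE)

end Pool.Agent.Results.MP_f1a348_lc.IRGroups
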