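import Pool.Agent.Y600.Fam.IMMain

/-!
# Large families of groups that the invertible-map test does not distinguish

There is a constant `C` such that for every odd prime `p`, all `k ≥ 1` and all `r ≥ C k` there are
at least `p ^ (r ^ 3 / (C k))` groups of order `p ^ r`, of exponent `p` and class at most two, whose
Latin square graphs are pairwise not isomorphic but pairwise not distinguished by the
`k`-dimensional invertible-map test of Dawar and Holm over all fields of characteristic different
from `p`. For fixed `k` the exponent has the order of magnitude `r ^ 3` of the exponent for all groups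
of order `p ^ r` (Higman; Sims). For `k` proportional to `r` the groups are not distinguished in
dimension proportional to `log n`, `n = p ^ r`, and there are still `n ^ Ω(log n)` of them.

The starting result `MP_f1a348_lc.InvertibleMapGroups` gives a single pair of groups for every `k`,
whose order is not free. The groups here are those of `Pool/Agent/Y600/Fam`: they live on
`A × C × Γ`, with commutator map `f(x, y) + c(y) - d(x)` for a generic space `C` of tuples of
functionals on `A`. Any two of them (for `f`, `f'`) are connected by shears by local solutions `M` of
`M x y - M y x = f x y - f' x y`, which can be extended; a counting argument bounds the number of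
isomorphisms, so that almost all of the `f` of a large set give nonisomorphic groups.
-/

set_option autoImplicit false

namespace Pool.Agent.Results.MP_f1a348_lc.InvertibleMapFamilies

open Pool.Agent.Y600.GI Pool.Agent.TH658.Sos

theorem result : ∃ C : ℕ, ∀ p : ℕ, p.Prime → p ≠ 2 → ∀ k r : ℕ, 1 ≤ k → C * k ≤ r →
    ∃ (Q I : Type) (_ : Fintype Q) (_ : Fintype I) (gr : I → Group Q),
      Fintype.card Q = p ^ r ∧
      p ^ (r ^ 3 / (C * k)) ≤ Fintype.card I ∧
      (∀ i, ExpTwo p (gr i)) ∧
      (∀ i j, Nonempty (groupGraph (gr i) ≃g groupGraph (gr j)) → i = j) ∧
      ∀ i j, IMEquiv p k (groupGraph (gr i)) (groupGraph (gr j)) :=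
  ⟨800000, fun p hp hp2 k r hk hr => Pool.Agent.Y600.Fam.mainIM p hp hp2 k r hk hr⟩

end Pool.Agent.Results.MP_f1a348_lc.InvertibleMapFamilies
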